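import Pool.Agent.Helper6.MONO.Stmts

/-!
Module FLG: minimal words give admissible paths.
-/

set_option autoImplicit false
noncomputable section
namespace Pool.Agent.Helper6.MONO

theorem flg_gact (G : Fin 3 → Fin 3 → ℂ) (a b : List (Fin 3)) (x : Fin 3 → ℂ) :
    gact G (a ++ b) x = gact G b (gact G a x) := by
  unfold gact
  rw [List.foldl_append]

theorem flg_congL {p q r : ℕ} {a a' : List (Fin 3)} (b : List (Fin 3)) (h : Eqv p q r a a') :
    Eqv p q r (a ++ b) (a' ++ b) := by
  intro τ G hG x
  rw [flg_gact, flg_gact, h τ G hG x]

theorem flg_congR {p q r : ℕ} (a : List (Fin 3)) {b b' : List (Fin 3)} (h : Eqv p q r b b') :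
    Eqv p q r (a ++ b) (a ++ b') := by
  intro τ G hG x
  rw [flg_gact, flg_gact, h τ G hG _]

theorem flg_trans {p q r : ℕ} {a b c : List (Fin 3)} (h : Eqv p q r a b) (h' : Eqv p q r b c) :
    Eqv p q r a c := fun τ G hG x => (h τ G hG x).trans (h' τ G hG x)

theorem flg_symm {p q r : ℕ} {a b : List (Fin 3)} (h : Eqv p q r a b) : Eqv p q r b a :=
  fun τ G hG x => (h τ G hG x).symm

theorem flg_len (n : ℕ) : ∀ i j : Fin 3, (alt i j n).length = n := by
  induction n with
  | zero => intro i j; rfl
  | succ n ih =>
    intro i j
    show (i :: alt j i n).length = n + 1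
    rw [List.length_cons, ih]

theorem flg_snoc (n : ℕ) : ∀ i j : Fin 3,
    alt i j (n + 1) = alt i j n ++ [if n % 2 = 0 then i else j] := by
  induction n with
  | zero => intro i j; rfl
  | succ n ih =>
    intro i j
    show i :: alt j i (n + 1) = (i :: alt j i n) ++ [if (n + 1) % 2 = 0 then i else j]
    rw [ih j i, List.cons_append]
    congr 2
    by_cases h : n % 2 = 0
    · rw [if_pos h, if_neg (by omega)]
    · rw [if_neg h, if_pos (by omega)]

theorem flg_split (k n : ℕ) (i j : Fin 3) : ∃ t, alt i j (k + n) = alt i j k ++ t := by
  induction n with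
  | zero => exact ⟨[], by rw [List.append_nil]; rfl⟩
  | succ n ih =>
    obtain ⟨t, ht⟩ := ih
    refine ⟨t ++ [if (k + n) % 2 = 0 then i else j], ?_⟩
    rw [← List.append_assoc, ← ht]
    exact flg_snoc (k + n) i j

theorem flg_pre {p q r : ℕ} {a b : List (Fin 3)} (h : MinW p q r (a ++ b)) : MinW p q r a := by
  intro v hv
  have := h (v ++ b) (flg_congL b hv)
  rw [List.length_append, List.length_append] at this
  omega

theorem flg_suf {p q r : ℕ} {a b : List (Fin 3)} (h : MinW p q r (a ++ b)) : MinW p q r b := by
  intro v hv
  have := h (a ++ v) (flg_congR a hv)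
  rw [List.length_append, List.length_append] at this
  omega

theorem flg_mm (p q r : ℕ) (i j : Fin 3) : mm p q r i j = mm p q r j i := by
  fin_cases i <;> fin_cases j <;> rfl

theorem flg_mm3 {p q r : ℕ} (hp : 3 ≤ p) (hq : 3 ≤ q) (hr : 3 ≤ r) {i j : Fin 3} (h : i ≠ j) :
    3 ≤ mm p q r i j := by
  fin_cases i <;> fin_cases j <;> first | exact absurd rfl h | assumption

/-- long alternating factors are not minimal -/
theorem flg_b (hB : ST_BRD) (hI : ST_INV) {p q r : ℕ} (hp : 3 ≤ p) (hq : 3 ≤ q) (hr : 3 ≤ r)
    {i j : Fin 3} (hij : i ≠ j) (P : List (Fin 3)) (n : ℕ)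
    (h : MinW p q r (P ++ alt i j n)) : n ≤ mm p q r i j := by
  by_contra hc
  push Not at hc
  obtain ⟨t, ht⟩ := flg_split (mm p q r i j + 1) (n - (mm p q r i j + 1)) i j
  have e : mm p q r i j + 1 + (n - (mm p q r i j + 1)) = n := by omega
  rw [e] at ht
  rw [ht] at h
  have h1 : MinW p q r (alt i j (mm p q r i j + 1)) := flg_pre (flg_suf h)
  obtain ⟨M, hM⟩ : ∃ M, mm p q r i j = M + 1 := by
    have := flg_mm3 hp hq hr hij
    exact ⟨mm p q r i j - 1, by omega⟩
  have h2 : Eqv p q r (alt i j (mm p q r i j + 1)) (alt j i M) := by
    have e1 : alt i j (mm p q r i j + 1) = [i] ++ alt j i (mm p q r i j) := rfl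
    have e2 : Eqv p q r (alt j i (mm p q r i j)) (alt i j (mm p q r i j)) :=
      flg_symm (hB p q r hp hq hr i j hij)
    have e3 : [i] ++ alt i j (mm p q r i j) = [i, i] ++ alt j i M := by
      rw [hM]
      rfl
    rw [e1]
    refine flg_trans (flg_congR [i] e2) ?_
    rw [e3]
    exact flg_congL (alt j i M) (hI p q r hp hq hr i)
  have h3 := h1 _ h2
  rw [flg_len, flg_len] at h3
  omega

/-- the general statement -/
theorem flg_main (hB : ST_BRD) (hI : ST_INV) {p q r : ℕ} (hp : 3 ≤ p) (hq : 3 ≤ q) (hr : 3 ≤ r)
    (bs : List (Bool × ℕ)) : ∀ (P : List (Fin 3)) (v : Bool) (c d e : Fin 3), Dist c d e → shp bs →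
    MinW p q r (P ++ bw (c, d, e) bs) →
    (v = true → ∃ Q : List (Fin 3), Q.length + 1 = P.length ∧ Eqv p q r P (Q ++ [d])) →
    okPath p q r v (c, d, e) bs := by
  induction bs with
  | nil => intro P v c d e _ _ _ _; trivial
  | cons b bs ih =>
    obtain ⟨ε, m⟩ := b
    intro P v c d e hD hS hM hv
    obtain ⟨hcd, hde, hec⟩ := hD
    have hS' : shp bs := fun b hb => hS b (List.mem_cons_of_mem _ hb)
    have hm := hS (ε, m) List.mem_cons_self
    have hM1 : MinW p q r ((P ++ blk d e ε m) ++ bw (nx (ev2 m) c d e) bs) := by
      rw [List.append_assoc]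
      exact hM
    have hM2 : MinW p q r (P ++ blk d e ε m) := flg_pre hM1
    have hsym := flg_mm p q r e d
    have hBde := hB p q r hp hq hr d e hde
    have hM3 := flg_mm3 hp hq hr hde
    -- the recursion
    have hrec : ∀ v' : Bool, (v' = true → ∃ Q : List (Fin 3), Q.length + 1 = (P ++ blk d e ε m).length ∧
        Eqv p q r (P ++ blk d e ε m) (Q ++ [if m % 2 = 0 then d else e])) →
        okPath p q r v' (nx (ev2 m) c d e) bs := by
      intro v' hv'
      by_cases he : m % 2 = 0
      · have e1 : ev2 m = true := decide_eq_true he
        rw [if_pos he] at hv'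
        rw [e1] at hM1 ⊢
        exact ih (P ++ blk d e ε m) v' e d c ⟨hde.symm, hcd.symm, hec.symm⟩ hS' hM1 hv'
      · have e1 : ev2 m = false := decide_eq_false he
        rw [if_neg he] at hv'
        rw [e1] at hM1 ⊢
        exact ih (P ++ blk d e ε m) v' d e c ⟨hde, hec, hcd⟩ hS' hM1 hv'
    rcases Bool.eq_false_or_eq_true ε with hε | hε
    · -- ε = true
      subst hε
      have hb : blk d e true m = alt d e m := rfl
      rcases Bool.eq_false_or_eq_true v with hvv | hvv
      · -- v = true: impossible
        exfalso
        obtain ⟨Q, hQ1, hQ2⟩ := hv hvv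
        obtain ⟨m', hm'⟩ : ∃ m', m = m' + 1 := ⟨m - 1, by have := hm.1 rfl; simp only at this; omega⟩
        have h1 : Eqv p q r (P ++ blk d e true m) (Q ++ alt e d m') := by
          refine flg_trans (flg_congL _ hQ2) ?_
          have e1 : (Q ++ [d]) ++ blk d e true m = Q ++ ([d, d] ++ alt e d m') := by
            rw [hb, hm', List.append_assoc]
            rfl
          rw [e1]
          exact flg_congR Q (flg_congL (alt e d m') (hI p q r hp hq hr d))
        have h2 := hM2 _ h1
        rw [hb, List.length_append, List.length_append, flg_len, flg_len] at h2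
        omega
      · subst hvv
        have h1 : m ≤ mm p q r d e := by
          refine flg_b hB hI hp hq hr hde P m ?_
          rw [← hb]
          exact hM2
        refine ⟨Or.inl ⟨rfl, rfl, hm.1 rfl, h1⟩, hrec _ ?_⟩
        intro hvn
        have h2 : m = mm p q r d e := by
          unfold vnext at hvn
          have := of_decide_eq_true hvn
          rcases this with h | h | h
          · exact h.2
          · exact absurd h.1 (by decide)
          · exact absurd h.1 (by decide)
        obtain ⟨M, hMM⟩ : ∃ M, m = M + 1 := ⟨m - 1, by omega⟩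
        refine ⟨P ++ alt e d M, ?_, ?_⟩
        · rw [hb, List.length_append, List.length_append, flg_len, flg_len]
          omega
        · rw [hb, List.append_assoc]
          refine flg_congR P ?_
          have e1 : alt e d M ++ [if m % 2 = 0 then d else e] = alt e d m := by
            rw [hMM, flg_snoc M e d]
            congr 2
            by_cases hpar : M % 2 = 0
            · rw [if_neg (by omega), if_pos hpar]
            · rw [if_pos (by omega), if_neg hpar]
          rw [e1, h2]
          exact hBde
    · -- ε = false
      subst hε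
      have hb : blk d e false m = alt e d (m - 1) := rfl
      have hm3 : 3 ≤ m := hm.2 rfl
      rcases Bool.eq_false_or_eq_true v with hvv | hvv
      · -- v = true
        subst hvv
        obtain ⟨Q, hQ1, hQ2⟩ := hv rfl
        have h1 : Eqv p q r (P ++ blk d e false m) (Q ++ alt d e m) := by
          refine flg_trans (flg_congL _ hQ2) ?_
          have e1 : (Q ++ [d]) ++ blk d e false m = Q ++ alt d e m := by
            obtain ⟨m', hm'⟩ : ∃ m', m = m' + 1 := ⟨m - 1, by omega⟩
            rw [hb, List.append_assoc, hm']
            rfl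
          rw [e1]
          exact fun τ G hG x => rfl
        have h2 : MinW p q r (Q ++ alt d e m) := by
          intro w hw
          have := hM2 w (flg_trans h1 hw)
          rw [hb, List.length_append, flg_len] at this
          rw [List.length_append, flg_len]
          omega
        have h3 : m ≤ mm p q r d e := flg_b hB hI hp hq hr hde Q m h2
        refine ⟨Or.inr (Or.inr ⟨rfl, rfl, hm3, h3⟩), hrec _ ?_⟩
        intro hvn
        have h4 : m = mm p q r d e := by
          unfold vnext at hvn
          have := of_decide_eq_true hvn
          rcases this with h | h | h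
          · exact absurd h.1 (by decide)
          · exact absurd h.2.1 (by decide)
          · exact h.2.2
        obtain ⟨M, hMM⟩ : ∃ M, m = M + 1 := ⟨m - 1, by omega⟩
        refine ⟨Q ++ alt e d M, ?_, ?_⟩
        · rw [hb, List.length_append, List.length_append, flg_len, flg_len]
          omega
        · refine flg_trans h1 ?_
          rw [List.append_assoc]
          refine flg_congR Q ?_
          have e1 : alt e d M ++ [if m % 2 = 0 then d else e] = alt e d m := by
            rw [hMM, flg_snoc M e d]
            congr 2
            by_cases hpar : M % 2 = 0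
            · rw [if_neg (by omega), if_pos hpar]
            · rw [if_pos (by omega), if_neg hpar]
          rw [e1, h4]
          exact hBde
      · subst hvv
        have h1 : m - 1 ≤ mm p q r e d := by
          refine flg_b hB hI hp hq hr hde.symm P (m - 1) ?_
          rw [← hb]
          exact hM2
        rw [hsym] at h1
        refine ⟨Or.inr (Or.inl ⟨rfl, rfl, hm3, by omega⟩), hrec _ ?_⟩
        intro hvn
        have h2 : m = mm p q r d e + 1 := by
          unfold vnext at hvn
          have := of_decide_eq_true hvn
          rcases this with h | h | h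
          · exact absurd h.1 (by decide)
          · exact h.2.2
          · exact absurd h.2.1 (by decide)
        obtain ⟨M, hMM⟩ : ∃ M, m = M + 2 := ⟨m - 2, by omega⟩
        refine ⟨P ++ alt d e M, ?_, ?_⟩
        · rw [hb, List.length_append, List.length_append, flg_len, flg_len]
          omega
        · rw [hb, List.append_assoc]
          refine flg_congR P ?_
          have e1 : alt d e M ++ [if m % 2 = 0 then d else e] = alt d e (mm p q r d e) := by
            have e2 : mm p q r d e = M + 1 := by omega
            rw [e2, hMM, flg_snoc M d e]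
            congr 2
            by_cases hpar : M % 2 = 0
            · rw [if_pos (by omega), if_pos hpar]
            · rw [if_neg (by omega), if_neg hpar]
          have e3 : m - 1 = mm p q r d e := by omega
          rw [e1, e3]
          exact flg_symm hBde

theorem st_FLG : ST_FLG := by
  intro hB hI p q r hp hq hr h c d e bs hD hS hM
  exact flg_main hB hI hp hq hr bs h false c d e hD hS hM (fun h => absurd h (by decide))

end Pool.Agent.Helper6.MONO
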